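import Mathlib

/-!
# A random walk in a field of unit arrows: the quenched kernel does not become equal to the mean
-/

set_option autoImplicit false

namespace Pool.Agent.X139.AR

open MeasureTheory Filter Topology ProbabilityTheory Finset
open scoped ENNReal

variable {d : ℕ}

/-- the unit vector `± e_i` -/
def vec (a : Fin d × Bool) : Fin d → ℤ := Pi.single a.1 (if a.2 then 1 else -1)

/-- the opposite arrow -/
def opp (a : Fin d × Bool) : Fin d × Bool := (a.1, !a.2)

/-- the transition probability from `x` to `z`, when the arrow at `x` is `n₀ x` -/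
noncomputable def tp (ε : ℝ) (n₀ : (Fin d → ℤ) → Fin d × Bool) (x z : Fin d → ℤ) : ℝ :=
  open scoped Classical in
  if x - z = vec (n₀ x) then 1 - (2 * d - 1) * ε
  else if ∃ a, x - z = vec a then ε else 0

/-- the quenched kernel `P(X_n = z)` of the chain started at `0` -/
noncomputable def pr (ε : ℝ) (n₀ : (Fin d → ℤ) → Fin d × Bool) : ℕ → (Fin d → ℤ) → ℝ
  | 0 => fun z => if z = 0 then 1 else 0
  | n + 1 => fun z => ∑ a : Fin d × Bool, pr ε n₀ n (z + vec a) * tp ε n₀ (z + vec a) z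

lemma vec_inj : Function.Injective (vec (d := d)) := by
  rintro ⟨i, s⟩ ⟨j, t⟩ h
  have h1 := congrFun h i
  unfold vec at h1
  simp only [Pi.single_eq_same] at h1
  by_cases hij : i = j
  · subst hij
    rw [Pi.single_eq_same] at h1
    cases s <;> cases t <;> simp_all
  · rw [Pi.single_eq_of_ne hij] at h1
    cases s <;> simp at h1

lemma tp_vec (ε : ℝ) (n₀ : (Fin d → ℤ) → Fin d × Bool) (z : Fin d → ℤ) (a : Fin d × Bool) :
    tp ε n₀ (z + vec a) z = if n₀ (z + vec a) = a then 1 - (2 * d - 1) * ε else ε := by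
  unfold tp
  rw [add_sub_cancel_left]
  by_cases h : n₀ (z + vec a) = a
  · rw [if_pos h, h, if_pos rfl]
  · have h2 : vec a ≠ vec (n₀ (z + vec a)) := fun h3 => h (vec_inj h3).symm
    rw [if_neg h, if_neg h2, if_pos ⟨a, rfl⟩]

lemma vec_opp (a : Fin d × Bool) : vec (opp a) = -vec a := by
  unfold vec opp
  funext i
  by_cases h : i = a.1
  · subst h
    cases h2 : a.2 <;> simp [h2]
  · simp [Pi.single_eq_of_ne h]

lemma opp_ne (a : Fin d × Bool) : opp a ≠ a := by
  unfold opp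
  intro h
  have := congrArg Prod.snd h
  simp at this

variable {ε : ℝ}

lemma tp_bounds (hε : 0 < ε) (hε1 : 2 * d * ε < 1) (n₀ : (Fin d → ℤ) → Fin d × Bool)
    (z : Fin d → ℤ) (a : Fin d × Bool) :
    ε ≤ tp ε n₀ (z + vec a) z ∧ tp ε n₀ (z + vec a) z ≤ 1 := by
  have hd : (1 : ℝ) ≤ d := by
    have : 0 < d := Fin.pos a.1
    exact_mod_cast this
  rw [tp_vec]
  split_ifs
  · constructor <;> nlinarith
  · constructor <;> nlinarith

lemma pr_nonneg (hε : 0 < ε) (hε1 : 2 * d * ε < 1) (n₀ : (Fin d → ℤ) → Fin d × Bool) (n : ℕ)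
    (z : Fin d → ℤ) : 0 ≤ pr ε n₀ n z := by
  induction n generalizing z with
  | zero =>
    unfold pr
    split_ifs <;> norm_num
  | succ n ih =>
    show 0 ≤ ∑ a : Fin d × Bool, pr ε n₀ n (z + vec a) * tp ε n₀ (z + vec a) z
    exact Finset.sum_nonneg fun a _ => mul_nonneg (ih _) (hε.le.trans (tp_bounds hε hε1 n₀ z a).1)

lemma pr_le (hε : 0 < ε) (hε1 : 2 * d * ε < 1) (n₀ : (Fin d → ℤ) → Fin d × Bool) (n : ℕ)
    (z : Fin d → ℤ) : pr ε n₀ n z ≤ (Fintype.card (Fin d × Bool) : ℝ) ^ n := by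
  induction n generalizing z with
  | zero =>
    unfold pr
    split_ifs <;> norm_num
  | succ n ih =>
    show ∑ a : Fin d × Bool, pr ε n₀ n (z + vec a) * tp ε n₀ (z + vec a) z ≤ _
    rw [pow_succ, mul_comm]
    refine (Finset.sum_le_card_nsmul _ _ ((Fintype.card (Fin d × Bool) : ℝ) ^ n) fun a _ => ?_).trans ?_
    · have h1 := tp_bounds hε hε1 n₀ z a
      calc pr ε n₀ n (z + vec a) * tp ε n₀ (z + vec a) z
          ≤ (Fintype.card (Fin d × Bool) : ℝ) ^ n * 1 :=
            mul_le_mul (ih _) h1.2 (hε.le.trans h1.1) (by positivity)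
        _ = _ := mul_one _
    · rw [nsmul_eq_mul, Finset.card_univ]

lemma pr_step_ge (hε : 0 < ε) (hε1 : 2 * d * ε < 1) (n₀ : (Fin d → ℤ) → Fin d × Bool) (n : ℕ)
    (z : Fin d → ℤ) (a : Fin d × Bool) : pr ε n₀ n (z + vec a) * ε ≤ pr ε n₀ (n + 1) z := by
  show _ ≤ ∑ a : Fin d × Bool, pr ε n₀ n (z + vec a) * tp ε n₀ (z + vec a) z
  refine le_trans ?_ (Finset.single_le_sum
    (f := fun a => pr ε n₀ n (z + vec a) * tp ε n₀ (z + vec a) z)
    (fun b _ => mul_nonneg (pr_nonneg hε hε1 n₀ n _) (hε.le.trans (tp_bounds hε hε1 n₀ z b).1))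
    (Finset.mem_univ a))
  exact mul_le_mul_of_nonneg_left (tp_bounds hε hε1 n₀ z a).1 (pr_nonneg hε hε1 n₀ n _)

lemma pr_low (hd : 0 < d) (hε : 0 < ε) (hε1 : 2 * d * ε < 1) (n₀ : (Fin d → ℤ) → Fin d × Bool) (k : ℕ) :
    ε ^ (2 * k) ≤ pr ε n₀ (2 * k) 0 ∧
      ∀ a : Fin d × Bool, ε ^ (2 * k + 1) ≤ pr ε n₀ (2 * k + 1) (vec a) := by
  have key : ∀ k : ℕ, ε ^ (2 * k) ≤ pr ε n₀ (2 * k) 0 →
      ∀ a : Fin d × Bool, ε ^ (2 * k + 1) ≤ pr ε n₀ (2 * k + 1) (vec a) := by
    intro k h a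
    have h1 := pr_step_ge hε hε1 n₀ (2 * k) (vec a) (opp a)
    rw [vec_opp, add_neg_cancel] at h1
    refine le_trans ?_ h1
    rw [pow_succ]
    exact mul_le_mul_of_nonneg_right h hε.le
  induction k with
  | zero =>
    have h0 : ε ^ (2 * 0) ≤ pr ε n₀ (2 * 0) 0 := by
      simp [pr]
    exact ⟨h0, key 0 h0⟩
  | succ k ih =>
    have h0 : ε ^ (2 * (k + 1)) ≤ pr ε n₀ (2 * (k + 1)) 0 := by
      have h1 := pr_step_ge hε hε1 n₀ (2 * k + 1) 0 (⟨0, hd⟩, true)
      rw [zero_add] at h1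
      have e : 2 * (k + 1) = 2 * k + 1 + 1 := by ring
      rw [e, pow_succ]
      exact (mul_le_mul_of_nonneg_right (ih.2 _) hε.le).trans h1
    exact ⟨h0, key (k + 1) h0⟩

/-! ### randomness -/

variable {Ω : Type*} [MeasurableSpace Ω]

lemma pr_meas {N : (Fin d → ℤ) → Ω → Fin d × Bool} (hN : ∀ x, Measurable (N x)) (n : ℕ)
    (z : Fin d → ℤ) : Measurable (fun ω => pr ε (fun x => N x ω) n z) := by
  induction n generalizing z with
  | zero =>
    unfold pr
    exact measurable_const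
  | succ n ih =>
    show Measurable (fun ω => ∑ a : Fin d × Bool, pr ε (fun x => N x ω) n (z + vec a) *
      tp ε (fun x => N x ω) (z + vec a) z)
    apply Finset.measurable_sum
    intro a _
    apply (ih _).mul
    simp only [tp_vec]
    exact Measurable.ite (hN _ (measurableSet_singleton a)) measurable_const measurable_const

/-- the averaged kernel -/
noncomputable def mean (P : Measure Ω) (ε : ℝ) (N : (Fin d → ℤ) → Ω → Fin d × Bool) (n : ℕ)
    (z : Fin d → ℤ) : ℝ := ∫ ω, pr ε (fun x => N x ω) n z ∂P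

/-- the field of independent uniform arrows -/
structure IsArrowField (P : Measure Ω) (N : (Fin d → ℤ) → Ω → Fin d × Bool) : Prop where
  meas : ∀ x, Measurable (N x)
  indep : iIndepFun N P
  unif : ∀ x a, P {ω | N x ω = a} = ENNReal.ofReal (1 / (2 * d))

/-- the condition (ii): the ratio of the quenched and the averaged kernels tends to `1` in measure,
uniformly for `|x| ≤ C √n` -/
def CondII (P : Measure Ω) (ε : ℝ) (N : (Fin d → ℤ) → Ω → Fin d × Bool) : Prop :=
  ∀ C : ℝ, 0 < C → ∀ δ : ℝ, 0 < δ →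
    Tendsto (fun n : ℕ => ⨆ (x : Fin d → ℤ)
      (_ : Real.sqrt (∑ i, (x i : ℝ) ^ 2) ≤ C * Real.sqrt n ∧ 0 < mean P ε N n x),
        P {ω | δ < |pr ε (fun y => N y ω) n x / mean P ε N n x - 1|}) atTop (𝓝 0)

lemma arrows_prob {P : Measure Ω} {N : (Fin d → ℤ) → Ω → Fin d × Bool} (h : IsArrowField P N)
    (f : Fin d × Bool → Fin d × Bool) :
    P (⋂ a, {ω | N (vec a) ω = f a}) =
      ENNReal.ofReal (1 / (2 * d)) ^ Fintype.card (Fin d × Bool) := by
  have h1 := (h.indep.precomp vec_inj).measure_inter_preimage_eq_mul Finset.univ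
    (sets := fun a => {f a}) (fun a _ => measurableSet_singleton _)
  have e : (⋂ a, {ω | N (vec a) ω = f a}) =
      ⋂ a ∈ (Finset.univ : Finset (Fin d × Bool)), N (vec a) ⁻¹' {f a} := by
    ext ω
    simp
  rw [e, h1]
  have h2 : ∀ a, P (N (vec a) ⁻¹' {f a}) = ENNReal.ofReal (1 / (2 * d)) := fun a => h.unif (vec a) (f a)
  rw [Finset.prod_congr rfl fun a _ => h2 a, Finset.prod_const, Finset.card_univ]

lemma norm_vec (a : Fin d × Bool) : ∑ i, ((vec a i : ℤ) : ℝ) ^ 2 = 1 := by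
  unfold vec
  rw [Finset.sum_eq_single a.1]
  · rw [Pi.single_eq_same]
    cases a.2 <;> simp
  · intro j _ hj
    rw [Pi.single_eq_of_ne hj]
    simp
  · simp

theorem not_condII {P : Measure Ω} [IsProbabilityMeasure P] {N : (Fin d → ℤ) → Ω → Fin d × Bool}
    (hd : 0 < d) (h : IsArrowField P N) (hε : 0 < ε) (hε1 : 2 * d * ε < 1) : ¬ CondII P ε N := by
  intro hII
  set q : ℝ := 1 - (2 * d - 1) * ε with hq
  have hqe : ε < q := by rw [hq]; linarith
  have hq1 : q ≤ 1 := by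
    have : (1:ℝ) ≤ d := by exact_mod_cast hd
    rw [hq]
    nlinarith
  set δ : ℝ := (q - ε) / (4 * (q + ε)) with hδ
  have hδ0 : 0 < δ := div_pos (by linarith) (by linarith)
  have hδ1 : δ ≤ 1 / 4 := by
    rw [hδ, div_le_div_iff₀ (by linarith) (by norm_num)]
    linarith
  have hδ2 : δ * (4 * (q + ε)) = q - ε := by
    rw [hδ]
    exact div_mul_cancel₀ _ (by linarith)
  set α : ℝ≥0∞ := ENNReal.ofReal (1 / (2 * d)) ^ Fintype.card (Fin d × Bool) with hα
  have hα0 : 0 < α := by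
    have : (0:ℝ) < d := by exact_mod_cast hd
    exact ENNReal.pow_pos (by simpa using this) _
  have hαt : α ≠ ∞ := ENNReal.pow_ne_top ENNReal.ofReal_ne_top
  set K : ℕ := Fintype.card (Fin d × Bool) + 1 with hK
  have hη : 0 < α / (K + 1) := ENNReal.div_pos hα0.ne' (by simp)
  have hev := (tendsto_order.1 (hII 1 one_pos δ hδ0)).2 _ hη
  obtain ⟨n₁, hn₁⟩ := eventually_atTop.1 hev
  set n : ℕ := 2 * n₁ + 1 with hn
  have hintg : ∀ m z, Integrable (fun ω => pr ε (fun x => N x ω) m z) P := by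
    intro m z
    refine (integrable_const ((Fintype.card (Fin d × Bool) : ℝ) ^ m)).mono'
      (pr_meas h.meas m z).aestronglyMeasurable (Eventually.of_forall fun ω => ?_)
    rw [Real.norm_of_nonneg (pr_nonneg hε hε1 _ _ _)]
    exact pr_le hε hε1 _ _ _
  have hm1 : ∀ a, 0 < mean P ε N n (vec a) := by
    intro a
    have h1 : ε ^ n ≤ mean P ε N n (vec a) := by
      have h2 := integral_mono (integrable_const (ε ^ n)) (hintg n (vec a))
        (fun ω => (pr_low hd hε hε1 (fun x => N x ω) n₁).2 a)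
      rw [integral_const, probReal_univ, one_smul] at h2
      exact h2
    exact lt_of_lt_of_le (by positivity) h1
  have hm0 : 0 < mean P ε N (n + 1) 0 := by
    have h1 : ε ^ (n + 1) ≤ mean P ε N (n + 1) 0 := by
      have h2 := integral_mono (integrable_const (ε ^ (n + 1))) (hintg (n + 1) 0)
        (fun ω => (pr_low hd hε hε1 (fun x => N x ω) (n₁ + 1)).1)
      rw [integral_const, probReal_univ, one_smul] at h2
      exact h2
    exact lt_of_lt_of_le (by positivity) h1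
  have hb1 : ∀ a, P {ω | δ < |pr ε (fun y => N y ω) n (vec a) / mean P ε N n (vec a) - 1|} < α / (K + 1) := by
    intro a
    refine lt_of_le_of_lt ?_ (hn₁ n (by omega))
    refine le_iSup₂_of_le (vec a) ⟨?_, hm1 a⟩ le_rfl
    rw [norm_vec, one_mul]
    apply Real.sqrt_le_sqrt
    have : (1:ℕ) ≤ n := by omega
    exact_mod_cast this
  have hb0 : P {ω | δ < |pr ε (fun y => N y ω) (n + 1) 0 / mean P ε N (n + 1) 0 - 1|} < α / (K + 1) := by
    refine lt_of_le_of_lt ?_ (hn₁ (n + 1) (by omega))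
    refine le_iSup₂_of_le 0 ⟨?_, hm0⟩ le_rfl
    simp only [Pi.zero_apply, Int.cast_zero, ne_eq, OfNat.ofNat_ne_zero, not_false_eq_true, zero_pow,
      Finset.sum_const_zero, Real.sqrt_zero, one_mul]
    exact Real.sqrt_nonneg _
  -- a good point of each of the two events
  have hgood : ∀ f : Fin d × Bool → Fin d × Bool, ∃ ω, (∀ a, N (vec a) ω = f a) ∧
      (∀ a, |pr ε (fun y => N y ω) n (vec a) / mean P ε N n (vec a) - 1| ≤ δ) ∧
      |pr ε (fun y => N y ω) (n + 1) 0 / mean P ε N (n + 1) 0 - 1| ≤ δ := by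
    intro f
    by_contra hcon
    push Not at hcon
    have hsub : (⋂ a, {ω | N (vec a) ω = f a}) ⊆
        (⋃ a, {ω | δ < |pr ε (fun y => N y ω) n (vec a) / mean P ε N n (vec a) - 1|}) ∪
          {ω | δ < |pr ε (fun y => N y ω) (n + 1) 0 / mean P ε N (n + 1) 0 - 1|} := by
      intro ω hω
      rw [Set.mem_iInter] at hω
      by_cases hall : ∀ a, |pr ε (fun y => N y ω) n (vec a) / mean P ε N n (vec a) - 1| ≤ δ
      · exact Or.inr (hcon ω hω hall)
      · push Not at hall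
        obtain ⟨a, ha⟩ := hall
        exact Or.inl (Set.mem_iUnion.2 ⟨a, ha⟩)
    have h1 := measure_mono (μ := P) hsub
    rw [arrows_prob h f] at h1
    have h2 : P ((⋃ a, {ω | δ < |pr ε (fun y => N y ω) n (vec a) / mean P ε N n (vec a) - 1|}) ∪
        {ω | δ < |pr ε (fun y => N y ω) (n + 1) 0 / mean P ε N (n + 1) 0 - 1|}) ≤
        K * (α / (K + 1)) := by
      refine (measure_union_le _ _).trans ?_
      have h3 : P (⋃ a, {ω | δ < |pr ε (fun y => N y ω) n (vec a) / mean P ε N n (vec a) - 1|}) ≤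
          Fintype.card (Fin d × Bool) * (α / (K + 1)) := by
        refine (measure_iUnion_fintype_le P _).trans ?_
        refine (Finset.sum_le_card_nsmul _ _ (α / (K + 1)) fun a _ => (hb1 a).le).trans ?_
        rw [nsmul_eq_mul, Finset.card_univ]
      refine (add_le_add h3 hb0.le).trans (le_of_eq ?_)
      rw [hK]
      push_cast
      ring
    have h4 : (K : ℝ≥0∞) * (α / (K + 1)) < α := by
      rw [← mul_div_assoc]
      apply ENNReal.div_lt_of_lt_mul
      rw [mul_comm]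
      exact (ENNReal.mul_lt_mul_iff_right hα0.ne' hαt).2 (ENNReal.lt_add_right (by simp) one_ne_zero)
    exact absurd (h1.trans h2) (not_le.2 h4)
  have hstep : ∀ (c : ℝ) (f : Fin d × Bool → Fin d × Bool) (ω : Ω), (∀ a, N (vec a) ω = f a) →
      (∀ a, (if f a = a then q else ε) = c) →
      pr ε (fun y => N y ω) (n + 1) 0 = c * ∑ a, pr ε (fun y => N y ω) n (vec a) := by
    intro c f ω hω hc
    show ∑ a : Fin d × Bool, pr ε (fun y => N y ω) n (0 + vec a) *
      tp ε (fun y => N y ω) (0 + vec a) 0 = _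
    rw [Finset.mul_sum]
    refine Finset.sum_congr rfl fun a _ => ?_
    rw [tp_vec]
    simp only [zero_add]
    rw [hω a, hc a, mul_comm]
  set M : ℝ := ∑ a, mean P ε N n (vec a) with hM
  have hM0 : 0 < M := Finset.sum_pos (fun a _ => hm1 a) ⟨(⟨0, hd⟩, true), Finset.mem_univ _⟩
  have hconv : ∀ u v : ℝ, 0 < v → |u / v - 1| ≤ δ → (1 - δ) * v ≤ u ∧ u ≤ (1 + δ) * v := by
    intro u v hv huv
    have e : u / v - 1 = (u - v) / v := by field_simp
    rw [e, abs_div, abs_of_pos hv, div_le_iff₀ hv, abs_le] at huv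
    constructor <;> linarith [huv.1, huv.2]
  obtain ⟨ω₁, ha1, hb1', hc1⟩ := hgood id
  obtain ⟨ω₂, ha2, hb2', hc2⟩ := hgood opp
  have e1 := hstep q id ω₁ ha1 (fun a => by simp)
  have e2 := hstep ε opp ω₂ ha2 (fun a => by rw [if_neg (opp_ne a)])
  have s1 : (1 - δ) * M ≤ ∑ a, pr ε (fun y => N y ω₁) n (vec a) := by
    rw [hM, Finset.mul_sum]
    exact Finset.sum_le_sum fun a _ => (hconv _ _ (hm1 a) (hb1' a)).1
  have s2 : ∑ a, pr ε (fun y => N y ω₂) n (vec a) ≤ (1 + δ) * M := by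
    rw [hM, Finset.mul_sum]
    exact Finset.sum_le_sum fun a _ => (hconv _ _ (hm1 a) (hb2' a)).2
  have t1 := (hconv _ _ hm0 hc1).2
  have t2 := (hconv _ _ hm0 hc2).1
  rw [e1] at t1
  rw [e2] at t2
  set m₀ : ℝ := mean P ε N (n + 1) 0 with hm0d
  have hq0 : 0 < q := hε.trans hqe
  have r1 : q * ((1 - δ) * M) ≤ (1 + δ) * m₀ := (mul_le_mul_of_nonneg_left s1 hq0.le).trans t1
  have r2 : (1 - δ) * m₀ ≤ ε * ((1 + δ) * M) := t2.trans (mul_le_mul_of_nonneg_left s2 hε.le)
  have r3 : (1 - δ) * (q * ((1 - δ) * M)) ≤ (1 + δ) * (ε * ((1 + δ) * M)) := by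
    have r4 := mul_le_mul_of_nonneg_left r1 (by linarith : 0 ≤ 1 - δ)
    have r5 := mul_le_mul_of_nonneg_left r2 (by linarith : 0 ≤ 1 + δ)
    linarith
  have r6 : (q * (1 - δ) ^ 2) * M ≤ (ε * (1 + δ) ^ 2) * M := by nlinarith
  have r7 := le_of_mul_le_mul_right r6 hM0
  nlinarith [mul_pos hq0 hδ0, mul_pos hε hδ0, sq_nonneg δ]

end Pool.Agent.X139.AR
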